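import Pool.Agent.W93.TD6
import Pool.Agent.W93.AU15

set_option autoImplicit false

/-! Prime tuples with shifts in sets of integers which satisfy a one shift estimate. -/

namespace Pool.Agent.TH890
open Finset
open Pool.Agent.H807R2.Dav
open Pool.Agent.H373R2.T7
open Pool.Agent.W93.DG
open Pool.Agent.W93.RD
open Pool.Agent.W93.TD

open Classical in
/-- the one shift estimate for a set of integers (the conclusion of `Pool.Agent.W93.AU.au_one`) -/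
def OneShift (S : ℕ → Prop) (κκ Bc U : ℕ) : Prop :=
  ∃ (A B0 : ℕ) (C : ℝ), 0 ≤ C ∧ ∀ E : ℕ, ∃ N₀ : ℕ, ∀ N, N₀ ≤ N →
    ∀ cc : ℕ, cc ≤ Bc * N → ∃ (Ω : Finset ℕ) (p : ℕ → ℝ),
      (∀ v ∈ Ω, 0 ≤ p v) ∧ ∑ v ∈ Ω, p v = 1 ∧ (∀ v ∈ Ω, p v ≤ 1 / Real.log N ^ U) ∧ (∀ v ∈ Ω, cc + κκ * v ≤ A * N) ∧
      (∀ v, v < N → S v → v ∈ Ω ∧ 1 ≤ C * (((range N).filter fun v => S v).card : ℝ) * p v) ∧
      ∀ z : ℕ, Real.log N ^ B0 ≤ z → (z : ℝ) ≤ Real.log N ^ E → ∀ Kc : ℝ, 0 < Kc → ∀ G : ℕ → ℝ, (∀ n ∈ Icc 1 N, |G n| ≤ Kc) →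
        ∑ v ∈ Ω, p v * |∑ n ∈ Icc 1 N, G n * (lamI ((n : ℤ) + ((cc + κκ * v : ℕ) : ℤ)) - lamzI z ((n : ℤ) + ((cc + κκ * v : ℕ) : ℤ)))| ≤
          Kc * (N / Real.log N ^ U)

variable {s : ℕ}

/-- replacing the von Mangoldt function by the sieve model -/
theorem os_diff (N A z : ℕ) (U : ℕ) (κκ c : Fin s → ℕ) (Ω : Fin s → Finset ℕ) (p : Fin s → ℕ → ℝ)
    (hp0 : ∀ i, ∀ v ∈ Ω i, 0 ≤ p i v) (hp1 : ∀ i, ∑ v ∈ Ω i, p i v = 1)
    (hA : ∀ i, ∀ v ∈ Ω i, c i + κκ i * v ≤ A * N)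
    (hone : ∀ i, ∀ K : ℝ, 0 < K → ∀ G : ℕ → ℝ, (∀ n ∈ Icc 1 N, |G n| ≤ K) →
      ∑ v ∈ Ω i, p i v * |∑ n ∈ Icc 1 N, G n * (lamI ((n : ℤ) + ((c i + κκ i * v : ℕ) : ℤ)) - lamzI z ((n : ℤ) + ((c i + κκ i * v : ℕ) : ℤ)))| ≤
          K * (N / Real.log N ^ (U + s + 2)))
    (hN : 1 ≤ N) (hL1 : 1 ≤ Real.log N) (hLA : Real.log ((A + 1 : ℕ) : ℝ) ≤ Real.log N)
    (hbig : (s : ℝ) * 2 ^ s ≤ Real.log N) (hV : (Vz z)⁻¹ ≤ Real.log N) :
    ∑ m ∈ Fintype.piFinset Ω, (∏ i, p i (m i)) * |∑ n ∈ Icc 1 N, ArithmeticFunction.vonMangoldt n *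
        (∏ i, lamI ((n : ℤ) + ((c i + κκ i * m i : ℕ) : ℤ)) - ∏ i, lamzI z ((n : ℤ) + ((c i + κκ i * m i : ℕ) : ℤ)))| ≤
        N / Real.log N ^ U := by
  classical
  obtain ⟨L, hL⟩ : ∃ L, L = Real.log (N : ℝ) := ⟨_, rfl⟩
  rw [← hL] at hL1 hLA hbig hV ⊢
  simp only [← hL] at hone
  have hL0 : 0 < L := by linarith
  have hN0 : (0 : ℝ) < N := by exact_mod_cast hN
  have hX1 : 1 ≤ (A + 1) * N := Nat.mul_pos (by omega) hN
  have hlogX : Real.log (((A + 1) * N : ℕ) : ℝ) ≤ 2 * L := by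
    rw [Nat.cast_mul, Real.log_mul (by positivity) hN0.ne', ← hL]
    linarith
  have hup : ∀ i, ∀ n ∈ Icc 1 N, ∀ v ∈ Ω i, (((n : ℤ) + ((c i + κκ i * v : ℕ) : ℤ) : ℤ) : ℝ) ≤ (((A + 1) * N : ℕ) : ℝ) := by
    intro i n hn v hv
    rw [mem_Icc] at hn
    have h4 := hA i v hv
    have h5 : n + (c i + κκ i * v) ≤ (A + 1) * N := by
      rw [add_mul, one_mul]
      omega
    exact_mod_cast h5
  have key := tele_w N Ω p hp0 hp1 (fun i n v => lamI ((n : ℤ) + ((c i + κκ i * v : ℕ) : ℤ)))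
    (fun i n v => lamzI z ((n : ℤ) + ((c i + κκ i * v : ℕ) : ℤ)))
    (2 * L) ((N : ℝ) / L ^ (U + s + 2)) (by linarith) (by positivity) (by
      intro i n hn v hv
      rw [abs_of_nonneg (lamI_nonneg _)]
      exact (lamI_le _ _ (by exact_mod_cast hX1) (hup i n hn v hv)).trans hlogX) (by
      intro i n hn v hv
      rw [abs_of_nonneg (lamzI_nonneg _ _)]
      exact (lamzI_le z _).trans (by linarith)) hone
    univ L hL0 (fun n _ => ArithmeticFunction.vonMangoldt n) (by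
      intro n hn m _
      rw [mem_Icc] at hn
      rw [abs_of_nonneg ArithmeticFunction.vonMangoldt_nonneg]
      have q1 : Real.log (n : ℝ) ≤ L := by
        rw [hL]
        apply Real.log_le_log (by exact_mod_cast hn.1)
        exact_mod_cast hn.2
      exact ArithmeticFunction.vonMangoldt_le_log.trans q1) (by
      intro n m v i _; rfl)
  rw [card_univ, Fintype.card_fin] at key
  refine key.trans ?_
  calc (s : ℝ) * (L * (2 * L) ^ s * (N / L ^ (U + s + 2))) = ((s : ℝ) * 2 ^ s) * (N / L ^ U * (L ^ (s + 1) / L ^ (s + 2))) := by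
        rw [mul_pow, show U + s + 2 = U + (s + 2) by ring, pow_add L U, pow_succ L s]
        field_simp
    _ ≤ L * (N / L ^ U * (L ^ (s + 1) / L ^ (s + 2))) := mul_le_mul_of_nonneg_right hbig (by positivity)
    _ = N / L ^ U := by
        rw [show s + 2 = (s + 1) + 1 by ring, pow_succ L (s + 1)]
        field_simp

/-- the weighted number of degenerate vectors -/
lemma os_degen (κκ c : Fin s → ℕ) (Ω : Fin s → Finset ℕ) (p : Fin s → ℕ → ℝ)
    (hp0 : ∀ i, ∀ v ∈ Ω i, 0 ≤ p i v) (hp1 : ∀ i, ∑ v ∈ Ω i, p i v = 1) (θ : ℝ) (hθ0 : 0 ≤ θ) (hθ : ∀ i, ∀ v ∈ Ω i, p i v ≤ θ)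
    (hκ : ∀ i, 1 ≤ κκ i) (i : Fin s) (g : (Fin s → ℕ) → ℕ)
    (hg : ∀ m v, g (Function.update m i v) = g m) :
    ∑ m ∈ Fintype.piFinset Ω, (∏ i, p i (m i)) * (if c i + κκ i * m i = g m then (1 : ℝ) else 0) ≤ θ := by
  classical
  have h1 := avg_w Ω p hp1 i (fun m => if c i + κκ i * m i = g m then (1 : ℝ) else 0)
  rw [← h1]
  have h2 : ∀ m ∈ Fintype.piFinset Ω, (∏ j, p j (m j)) *
      ∑ v ∈ Ω i, p i v * (if c i + κκ i * ((Function.update m i v) i) = g (Function.update m i v) then (1 : ℝ) else 0) ≤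
      (∏ j, p j (m j)) * θ := by
    intro m hm
    apply mul_le_mul_of_nonneg_left _ (prod_nonneg fun j _ => hp0 j _ (Fintype.mem_piFinset.1 hm j))
    have h3 : ∀ v ∈ Ω i, p i v * (if c i + κκ i * ((Function.update m i v) i) = g (Function.update m i v) then (1 : ℝ) else 0) =
        if c i + κκ i * v = g m then p i v else 0 := by
      intro v _
      rw [Function.update_self, hg]
      split_ifs <;> simp
    rw [sum_congr rfl h3]
    by_cases h4 : ∃ v ∈ Ω i, c i + κκ i * v = g m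
    · obtain ⟨v0, hv0, hv1⟩ := h4
      rw [sum_eq_single_of_mem v0 hv0, if_pos hv1]
      · exact hθ i v0 hv0
      · intro v _ hne
        rw [if_neg]
        intro hv2
        apply hne
        have h5 : κκ i * v = κκ i * v0 := by omega
        exact Nat.eq_of_mul_eq_mul_left (hκ i) h5
    · push Not at h4
      rw [sum_eq_zero]
      · exact hθ0
      · intro v hv
        rw [if_neg (h4 v hv)]
  refine (sum_le_sum h2).trans (le_of_eq ?_)
  rw [← sum_mul, total_w Ω p hp1, one_mul]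

end Pool.Agent.TH890
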