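import Pool.Agent.TH890.AutTup1

set_option autoImplicit false

/-! Prime tuples with shifts in sets of integers which satisfy a one shift estimate: the final count. -/

namespace Pool.Agent.TH890
open Finset
open Pool.Agent.H807R2.Dav
open Pool.Agent.H373R2.T7
open Pool.Agent.W93.DG
open Pool.Agent.W93.RD
open Pool.Agent.W93.TD

variable {s : ℕ}

open Classical in
/-- the weighted number of bad vectors -/
theorem os_bad (s U : ℕ) (L : ℝ) (N A z : ℕ) (ε : ℝ) (κκ c : Fin s → ℕ) (hκ : ∀ i, 1 ≤ κκ i) (Ω : Fin s → Finset ℕ) (p : Fin s → ℕ → ℝ)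
    (hp0 : ∀ i, ∀ v ∈ Ω i, 0 ≤ p i v) (hp1 : ∀ i, ∑ v ∈ Ω i, p i v = 1) (θ : ℝ) (hθ0 : 0 ≤ θ) (hθ : ∀ i, ∀ v ∈ Ω i, p i v ≤ θ)
    (hA : ∀ i, ∀ v ∈ Ω i, c i + κκ i * v ≤ A * N) (hL : 1 ≤ L) (hN : 1 ≤ N)
    (hdet : ∀ a : Fin s → ℕ, (∀ i, a i ≤ A * N) → (∀ i, a i ≠ 0) → (∀ i j, i ≠ j → a i ≠ a j) →
      |∑ n ∈ Icc 1 N, ArithmeticFunction.vonMangoldt n *
        (∏ i, lamI ((n : ℤ) + (a i : ℤ)) - ∏ i, lamzI z ((n : ℤ) + (a i : ℤ)))| ≤ (1 / 2) * (N / L ^ (U + 2)) → HLs ε U N a)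
    (hD : ∑ m ∈ Fintype.piFinset Ω, (∏ i, p i (m i)) * |∑ n ∈ Icc 1 N, ArithmeticFunction.vonMangoldt n *
        (∏ i, lamI ((n : ℤ) + ((c i + κκ i * m i : ℕ) : ℤ)) - ∏ i, lamzI z ((n : ℤ) + ((c i + κκ i * m i : ℕ) : ℤ)))| ≤
        N / L ^ (2 * U + 6)) :
    ∑ m ∈ Fintype.piFinset Ω, (if ¬ HLs ε U N (fun i => c i + κκ i * m i) then ∏ i, p i (m i) else 0) ≤
      ((s : ℝ) + s * s) * θ + 2 / L ^ (U + 2) := by
  have hL0 : 0 < L := by linarith
  have hNr : (0 : ℝ) < N := by exact_mod_cast hN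
  have hdeg1 : ∀ i : Fin s, ∑ m ∈ Fintype.piFinset Ω, (∏ i, p i (m i)) * (if c i + κκ i * m i = 0 then (1 : ℝ) else 0) ≤ θ :=
    fun i => os_degen κκ c Ω p hp0 hp1 θ hθ0 hθ hκ i (fun _ => 0) (fun _ _ => rfl)
  have hdeg2 : ∀ i j : Fin s, ∑ m ∈ Fintype.piFinset Ω, (∏ i, p i (m i)) *
      (if j ≠ i ∧ c i + κκ i * m i = c j + κκ j * m j then (1 : ℝ) else 0) ≤ θ := by
    intro i j
    by_cases hij : j ≠ i
    · refine le_trans (le_of_eq ?_) (os_degen κκ c Ω p hp0 hp1 θ hθ0 hθ hκ i (fun m => c j + κκ j * m j) (fun m v => by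
        rw [Function.update_of_ne hij]))
      apply sum_congr rfl
      intro m _
      simp only [hij, true_and, ne_eq, not_false_eq_true]
    · simp only [hij, false_and, if_false, mul_zero, sum_const_zero]
      exact hθ0
  obtain ⟨DD, hDD⟩ : ∃ DD : (Fin s → ℕ) → ℝ, DD = fun m => |∑ n ∈ Icc 1 N, ArithmeticFunction.vonMangoldt n *
        (∏ i, lamI ((n : ℤ) + ((c i + κκ i * m i : ℕ) : ℤ)) - ∏ i, lamzI z ((n : ℤ) + ((c i + κκ i * m i : ℕ) : ℤ)))| := ⟨_, rfl⟩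
  have hDDr : ∀ m, |∑ n ∈ Icc 1 N, ArithmeticFunction.vonMangoldt n *
        (∏ i, lamI ((n : ℤ) + ((c i + κκ i * m i : ℕ) : ℤ)) - ∏ i, lamzI z ((n : ℤ) + ((c i + κκ i * m i : ℕ) : ℤ)))| = DD m :=
    fun m => by rw [hDD]
  simp only [hDDr] at hD
  obtain ⟨C, hC⟩ : ∃ C : ℝ, C = 1 / ((1 / 2) * (N / L ^ (U + 2))) := ⟨_, rfl⟩
  have hC0 : 0 ≤ C := by rw [hC]; positivity
  have hpt : ∀ m ∈ Fintype.piFinset Ω, (if ¬ HLs ε U N (fun i => c i + κκ i * m i) then ∏ i, p i (m i) else 0) ≤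
      ∑ i : Fin s, (∏ i, p i (m i)) * (if c i + κκ i * m i = 0 then (1 : ℝ) else 0) +
      ∑ i : Fin s, ∑ j : Fin s, (∏ i, p i (m i)) * (if j ≠ i ∧ c i + κκ i * m i = c j + κκ j * m j then (1 : ℝ) else 0) +
      C * ((∏ i, p i (m i)) * DD m) := by
    intro m hm
    have hm' := Fintype.mem_piFinset.1 hm
    obtain ⟨P, hP⟩ : ∃ P, P = ∏ i, p i (m i) := ⟨_, rfl⟩
    rw [← hP]
    have hP0 : 0 ≤ P := by rw [hP]; exact prod_nonneg fun j _ => hp0 j _ (hm' j)
    have hDD0 : 0 ≤ DD m := by rw [← hDDr]; exact abs_nonneg _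
    have t1 : ∀ i ∈ (univ : Finset (Fin s)), 0 ≤ P * (if c i + κκ i * m i = 0 then (1 : ℝ) else 0) := fun i _ =>
      mul_nonneg hP0 (by split_ifs <;> norm_num)
    have t2 : ∀ i ∈ (univ : Finset (Fin s)), ∀ j ∈ (univ : Finset (Fin s)),
        0 ≤ P * (if j ≠ i ∧ c i + κκ i * m i = c j + κκ j * m j then (1 : ℝ) else 0) :=
      fun i _ j _ => mul_nonneg hP0 (by split_ifs <;> norm_num)
    have t1' := sum_nonneg t1
    have t2' := sum_nonneg fun i hi => sum_nonneg (t2 i hi)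
    have t3 : 0 ≤ C * (P * DD m) := by positivity
    by_cases hEω : HLs ε U N (fun i => c i + κκ i * m i)
    · rw [if_neg (not_not.2 hEω)]
      linarith
    rw [if_pos hEω]
    by_cases q1 : ∃ i, c i + κκ i * m i = 0
    · obtain ⟨i, hi⟩ := q1
      have q2 := single_le_sum t1 (mem_univ i)
      rw [if_pos hi, mul_one] at q2
      linarith
    by_cases q3 : ∃ i j, j ≠ i ∧ c i + κκ i * m i = c j + κκ j * m j
    · obtain ⟨i, j, hij⟩ := q3
      have q2 := single_le_sum (f := fun j => P * (if j ≠ i ∧ c i + κκ i * m i = c j + κκ j * m j then (1 : ℝ) else 0)) (t2 i (mem_univ i)) (mem_univ j)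
      have q4 := single_le_sum (f := fun i => ∑ j : Fin s, P * (if j ≠ i ∧ c i + κκ i * m i = c j + κκ j * m j then (1 : ℝ) else 0))
        (fun i hi => sum_nonneg (t2 i hi)) (mem_univ i)
      rw [if_pos hij, mul_one] at q2
      linarith
    push Not at q1 q3
    -- the main case
    have q5 : (1 / 2) * (N / L ^ (U + 2)) < DD m := by
      by_contra hcon
      push Not at hcon
      apply hEω
      apply hdet _ (fun i => hA i _ (hm' i)) q1 (fun i j hij heq => q3 i j (Ne.symm hij) heq)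
      rw [hDDr]
      exact hcon
    have q6 : 1 ≤ C * DD m := by
      rw [hC, one_div, ← div_eq_inv_mul, le_div_iff₀ (by positivity), one_mul]
      exact q5.le
    have q7 : P ≤ C * (P * DD m) := by
      calc P = P * 1 := (mul_one _).symm
        _ ≤ P * (C * DD m) := mul_le_mul_of_nonneg_left q6 hP0
        _ = _ := by ring
    linarith
  refine (sum_le_sum hpt).trans ?_
  rw [sum_add_distrib, sum_add_distrib, ← mul_sum]
  have g1 : ∑ m ∈ Fintype.piFinset Ω, ∑ i : Fin s, (∏ i, p i (m i)) * (if c i + κκ i * m i = 0 then (1 : ℝ) else 0) ≤ s * θ := by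
    rw [sum_comm]
    refine (sum_le_sum fun i _ => hdeg1 i).trans (le_of_eq ?_)
    rw [sum_const, card_univ, Fintype.card_fin, nsmul_eq_mul]
  have g2 : ∑ m ∈ Fintype.piFinset Ω, ∑ i : Fin s, ∑ j : Fin s, (∏ i, p i (m i)) *
      (if j ≠ i ∧ c i + κκ i * m i = c j + κκ j * m j then (1 : ℝ) else 0) ≤ (s * s) * θ := by
    rw [sum_comm]
    have g3 : ∀ i ∈ (univ : Finset (Fin s)), ∑ m ∈ Fintype.piFinset Ω, ∑ j : Fin s, (∏ i, p i (m i)) *
      (if j ≠ i ∧ c i + κκ i * m i = c j + κκ j * m j then (1 : ℝ) else 0) ≤ s * θ := by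
      intro i _
      rw [sum_comm]
      refine (sum_le_sum fun j _ => hdeg2 i j).trans (le_of_eq ?_)
      rw [sum_const, card_univ, Fintype.card_fin, nsmul_eq_mul]
    refine (sum_le_sum g3).trans (le_of_eq ?_)
    rw [sum_const, card_univ, Fintype.card_fin, nsmul_eq_mul]
    ring
  have g3 : C * ∑ m ∈ Fintype.piFinset Ω, (∏ i, p i (m i)) * DD m ≤ 2 / L ^ (U + 2) := by
    refine (mul_le_mul_of_nonneg_left hD hC0).trans ?_
    have h1 : C * (N / L ^ (2 * U + 6)) = 2 / L ^ (U + 4) := by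
      rw [hC, show 2 * U + 6 = (U + 2) + (U + 4) by ring, pow_add L (U + 2) (U + 4)]
      have r1 : L ^ (U + 2) ≠ 0 := by positivity
      have r2 : L ^ (U + 4) ≠ 0 := by positivity
      field_simp
    rw [h1]
    exact div_le_div_of_nonneg_left (by norm_num) (by positivity) (pow_le_pow_right₀ hL (by omega))
  have g4 : ((s : ℝ) + s * s) * θ = s * θ + (s * s) * θ := by ring
  linarith

open Classical in
/-- the prime tuples conjecture for almost all vectors of shifts in sets which satisfy a one shift estimate -/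
theorem os_final (s : ℕ) (hs : 1 ≤ s) (S : Fin s → ℕ → Prop) (κκ : Fin s → ℕ) (hκ : ∀ i, 1 ≤ κκ i) (Bc U : ℕ) (ε : ℝ) (hε : 0 < ε)
    (h : ∀ i, OneShift (S i) (κκ i) Bc (2 * U + 6 + s + 2)) : ∃ N₀ : ℕ, ∀ N, N₀ ≤ N → ∀ c : Fin s → ℕ, (∀ i, c i ≤ Bc * N) →
    Real.log N ^ U * (((Fintype.piFinset (fun i => (range N).filter (S i))).filter
      (fun v => ¬ HLs ε U N (fun i => c i + κκ i * v i))).card : ℝ) ≤
      ((Fintype.piFinset (fun i => (range N).filter (S i))).card : ℝ) := by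
  choose A B0 C hC hE using h
  obtain ⟨At, hAt⟩ : ∃ At, At = ∑ i, A i := ⟨_, rfl⟩
  obtain ⟨Bt, hBt⟩ : ∃ Bt, Bt = ∑ i, B0 i := ⟨_, rfl⟩
  obtain ⟨Ct, hCt⟩ : ∃ Ct, Ct = ∏ i, C i := ⟨_, rfl⟩
  have hCt0 : 0 ≤ Ct := by rw [hCt]; exact prod_nonneg fun i _ => hC i
  have hAi : ∀ i, A i ≤ At := fun i => by rw [hAt]; exact single_le_sum (fun _ _ => Nat.zero_le _) (mem_univ i)
  have hBi : ∀ i, B0 i ≤ Bt := fun i => by rw [hBt]; exact single_le_sum (fun _ _ => Nat.zero_le _) (mem_univ i)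
  obtain ⟨E1, hE1⟩ : ∃ E1, E1 = Bt + U + s + 5 := ⟨_, rfl⟩
  choose N1 hN1 using fun i => hE i (E1 + 1)
  obtain ⟨Nt, hNt⟩ : ∃ Nt, Nt = ∑ i, N1 i := ⟨_, rfl⟩
  have hNi : ∀ i, N1 i ≤ Nt := fun i => by rw [hNt]; exact single_le_sum (fun _ _ => Nat.zero_le _) (mem_univ i)
  obtain ⟨n2, h2⟩ := det3 s At E1 U hs ε hε (by omega)
  obtain ⟨n3, h3⟩ := Vz_inv_small (E1 + 1)
  obtain ⟨n4, h4⟩ := ev_L' (2 + (s : ℝ) * 2 ^ s + Real.log ((At + 1 : ℕ) : ℝ) + Ct * (s + s * s + 2))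
  refine ⟨Nt + n2 + n3 + n4 + 1, fun N hN c hc => ?_⟩
  have hL := h4 N (by omega)
  obtain ⟨L, hLdef⟩ : ∃ L, L = Real.log (N : ℝ) := ⟨_, rfl⟩
  have q0 : 0 ≤ Real.log ((At + 1 : ℕ) : ℝ) := Real.log_natCast_nonneg _
  have q1 : 0 ≤ (s : ℝ) * 2 ^ s := by positivity
  have q2 : 0 ≤ Ct * ((s : ℝ) + s * s + 2) := by positivity
  rw [← hLdef] at hL
  have hL2 : 2 ≤ L := by linarith
  have hL1 : 1 ≤ L := by linarith
  have hL0 : 0 < L := by linarith
  -- the level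
  obtain ⟨z, hz⟩ : ∃ z, z = ⌈L ^ E1⌉₊ := ⟨_, rfl⟩
  have hz1 : L ^ E1 ≤ z := by rw [hz]; exact Nat.le_ceil _
  have hz2 : (z : ℝ) ≤ L ^ (E1 + 1) := by
    have q1 : (z : ℝ) < L ^ E1 + 1 := by rw [hz]; exact Nat.ceil_lt_add_one (by positivity)
    have q2 : 1 ≤ L ^ E1 := one_le_pow₀ hL1
    rw [pow_succ]
    nlinarith
  have hzn : 1 ≤ z := by
    have : (1 : ℝ) ≤ z := (one_le_pow₀ hL1).trans hz1
    exact_mod_cast this
  have hz3 : ∀ i, L ^ B0 i ≤ z := fun i => (pow_le_pow_right₀ hL1 (by have := hBi i; omega)).trans hz1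
  choose Ω p hp0 hp1 hpθ hpA hmem hone using fun i => hN1 i N (by have := hNi i; omega) (c i) (hc i)
  have hpA' : ∀ i, ∀ v ∈ Ω i, c i + κκ i * v ≤ At * N := fun i v hv =>
    (hpA i v hv).trans (Nat.mul_le_mul_right _ (hAi i))
  rw [← hLdef] at hpθ
  have hV := h3 N (by omega) z hzn (by rw [← hLdef]; exact hz2)
  have hD := os_diff N At z (2 * U + 6) κκ c Ω p hp0 hp1 hpA' (fun i K hK G hG => hone i z (by rw [← hLdef]; exact hz3 i)
    (by rw [← hLdef]; exact hz2) K hK G hG) (by omega) (by rw [← hLdef]; exact hL1) (by rw [← hLdef]; linarith)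
    (by rw [← hLdef]; linarith) hV
  rw [← hLdef] at hD
  have hbad := os_bad s U L N At z ε κκ c hκ Ω p hp0 hp1 (1 / L ^ (2 * U + 6 + s + 2)) (by positivity) hpθ hpA' hL1 (by omega)
    (fun a ha1 ha2 ha3 hd => h2 N (by omega) z (by rw [← hLdef]; exact hz1) (by rw [← hLdef]; exact hz2) a ha1 ha2 ha3
      (by rw [← hLdef]; exact hd)) hD
  have hbad2 : ∑ m ∈ Fintype.piFinset Ω, (if ¬ HLs ε U N (fun i => c i + κκ i * m i) then ∏ i, p i (m i) else 0) ≤
      ((s : ℝ) + s * s + 2) / L ^ (U + 2) := by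
    refine hbad.trans ?_
    have e1 : 1 / L ^ (2 * U + 6 + s + 2) ≤ 1 / L ^ (U + 2) :=
      one_div_le_one_div_of_le (by positivity) (pow_le_pow_right₀ hL1 (by omega))
    calc ((s : ℝ) + s * s) * (1 / L ^ (2 * U + 6 + s + 2)) + 2 / L ^ (U + 2) ≤
        ((s : ℝ) + s * s) * (1 / L ^ (U + 2)) + 2 / L ^ (U + 2) := by
          gcongr
      _ = _ := by ring
  -- from weights to numbers
  obtain ⟨F, hF⟩ : ∃ F, F = Fintype.piFinset (fun i => (range N).filter (S i)) := ⟨_, rfl⟩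
  have hFc : (F.card : ℝ) = ∏ i, (((range N).filter (S i)).card : ℝ) := by
    rw [hF, Fintype.card_piFinset, Nat.cast_prod]
  rw [← hF, ← hLdef]
  have hpt : ∀ v ∈ F, v ∈ Fintype.piFinset Ω ∧ 1 ≤ (Ct * F.card) * ∏ i, p i (v i) := by
    intro v hv
    rw [hF, Fintype.mem_piFinset] at hv
    have hv' : ∀ i, v i ∈ Ω i ∧ 1 ≤ C i * (((range N).filter (S i)).card : ℝ) * p i (v i) := fun i => by
      have h5 := hv i
      rw [mem_filter, mem_range] at h5
      exact hmem i (v i) h5.1 h5.2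
    refine ⟨Fintype.mem_piFinset.2 fun i => (hv' i).1, ?_⟩
    have h6 : (Ct * F.card) * ∏ i, p i (v i) = ∏ i, (C i * (((range N).filter (S i)).card : ℝ) * p i (v i)) := by
      rw [hFc, hCt, prod_mul_distrib, prod_mul_distrib]
    rw [h6]
    have h7 : ∏ _i : Fin s, (1 : ℝ) ≤ ∏ i, (C i * (((range N).filter (S i)).card : ℝ) * p i (v i)) :=
      prod_le_prod (fun _ _ => by norm_num) (fun i _ => (hv' i).2)
    rwa [prod_const_one] at h7
  have hcount : ((F.filter (fun v => ¬ HLs ε U N (fun i => c i + κκ i * v i))).card : ℝ) ≤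
      (Ct * F.card) * (((s : ℝ) + s * s + 2) / L ^ (U + 2)) := by
    calc ((F.filter (fun v => ¬ HLs ε U N (fun i => c i + κκ i * v i))).card : ℝ)
        = ∑ v ∈ F.filter (fun v => ¬ HLs ε U N (fun i => c i + κκ i * v i)), (1 : ℝ) := by
          rw [sum_const, nsmul_eq_mul, mul_one]
      _ ≤ ∑ v ∈ F.filter (fun v => ¬ HLs ε U N (fun i => c i + κκ i * v i)), (Ct * F.card) *
            (if ¬ HLs ε U N (fun i => c i + κκ i * v i) then ∏ i, p i (v i) else 0) := by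
          apply sum_le_sum
          intro v hv
          rw [mem_filter] at hv
          rw [if_pos hv.2]
          exact (hpt v hv.1).2
      _ ≤ ∑ v ∈ Fintype.piFinset Ω, (Ct * F.card) *
            (if ¬ HLs ε U N (fun i => c i + κκ i * v i) then ∏ i, p i (v i) else 0) := by
          apply sum_le_sum_of_subset_of_nonneg
          · intro v hv
            exact (hpt v (mem_filter.1 hv).1).1
          · intro v hv _
            have hv' := Fintype.mem_piFinset.1 hv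
            apply mul_nonneg (by positivity)
            split_ifs
            · exact le_rfl
            · exact prod_nonneg fun i _ => hp0 i _ (hv' i)
      _ ≤ _ := by
          rw [← mul_sum]
          exact mul_le_mul_of_nonneg_left hbad2 (by positivity)
  have hF0 : (0 : ℝ) ≤ F.card := Nat.cast_nonneg _
  calc L ^ U * ((F.filter (fun v => ¬ HLs ε U N (fun i => c i + κκ i * v i))).card : ℝ)
      ≤ L ^ U * ((Ct * F.card) * (((s : ℝ) + s * s + 2) / L ^ (U + 2))) := mul_le_mul_of_nonneg_left hcount (by positivity)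
    _ = (Ct * ((s : ℝ) + s * s + 2)) / L ^ 2 * F.card := by
        rw [pow_add]
        field_simp
    _ ≤ 1 * F.card := by
        apply mul_le_mul_of_nonneg_right _ hF0
        rw [div_le_one (by positivity)]
        nlinarith
    _ = F.card := one_mul _

end Pool.Agent.TH890
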